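import Pool.Agent.Helper61.NW.Goals
import Pool.Agent.Helper52.Wq2.Minor

/-!
# Project NW (MP_266b34_co), packet DEG: a finite graph lemma
-/

set_option autoImplicit false

namespace Pool.Agent.Helper50.NW

open Pool.Agent.Helper52.Wq2
open Pool.Agent.Helper61.NW

universe u

variable {V : Type u} {L : SimpleGraph V}

lemma adj_dist (hL : L.Connected) (v x y : V) (h : L.Adj x y) : L.dist v y ≤ L.dist v x + 1 := by
  have h2 : L.dist v y ≤ L.dist v x + L.dist x y := hL.dist_triangle
  have h3 : L.dist x y = 1 := SimpleGraph.dist_eq_one_iff_adj.2 h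
  omega

lemma step (hL : L.Connected) (v x : V) (h : L.dist v x ≠ 0) :
    ∃ y, L.Adj y x ∧ L.dist v x = L.dist v y + 1 := by
  obtain ⟨p, hp⟩ := hL.exists_walk_length_eq_dist v x
  obtain ⟨q, hq⟩ : ∃ q : L.Walk x v, q.length = L.dist v x :=
    ⟨p.reverse, by rw [SimpleGraph.Walk.length_reverse, hp]⟩
  cases q with
  | nil =>
    rw [SimpleGraph.Walk.length_nil] at hq
    exact absurd hq.symm h
  | cons hadj q' =>
    rename_i y
    refine ⟨y, hadj.symm, ?_⟩
    rw [SimpleGraph.Walk.length_cons] at hq
    have h1 : L.dist v y ≤ q'.length := by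
      rw [SimpleGraph.dist_comm]
      exact SimpleGraph.dist_le q'
    have h2 := adj_dist hL v y x hadj.symm
    omega

lemma path (hL : L.Connected) (v : V) : ∀ (n : ℕ) (x : V), L.dist v x = n →
    ∃ f : ℕ → V, f n = x ∧ (∀ i, i ≤ n → L.dist v (f i) = i) ∧ ∀ i, i < n → L.Adj (f i) (f (i + 1)) := by
  intro n
  induction n with
  | zero =>
    intro x hx
    refine ⟨fun _ => x, rfl, fun i hi => ?_, fun i hi => absurd hi (Nat.not_lt_zero _)⟩
    rw [Nat.le_zero.1 hi]
    exact hx
  | succ n ih =>
    intro x hx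
    obtain ⟨y, hy, hy2⟩ := step hL v x (by omega)
    obtain ⟨f, hf1, hf2, hf3⟩ := ih y (by omega)
    refine ⟨fun i => if i ≤ n then f i else x, ?_, ?_, ?_⟩
    · simp
    · intro i hi
      rcases Nat.lt_or_ge n i with h | h
      · have hi' : i = n + 1 := by omega
        subst hi'
        simp [hx]
      · simp only [h, if_true]
        exact hf2 i h
    · intro i hi
      rcases Nat.lt_or_ge i n with h | h
      · simp only [h.le, if_true, Nat.succ_le_of_lt h]
        exact hf3 i h
      · have hi' : i = n := by omega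
        subst hi'
        simp only [le_refl, if_true, Nat.not_succ_le_self, if_false]
        rw [hf1]
        exact hy

lemma ball (hL : L.Connected) [Finite V] (q : ℕ) (hq : ∀ v, (L.neighborSet v).ncard ≤ q) (v : V) :
    ∀ r : ℕ, {x | L.dist v x ≤ r}.ncard ≤ (q + 1) ^ r := by
  classical
  intro r
  induction r with
  | zero =>
    have h : {x | L.dist v x ≤ 0} = {v} := by
      ext x
      rw [Set.mem_ofPred_eq, Set.mem_singleton_iff, Nat.le_zero, hL.dist_eq_zero_iff]
      exact eq_comm
    rw [h, Set.ncard_singleton]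
    simp
  | succ r ih =>
    have _ : Fintype V := Fintype.ofFinite V
    let B : Finset V := Finset.univ.filter (fun x => L.dist v x ≤ r)
    let N : V → Finset V := fun y => Finset.univ.filter (fun x => L.Adj y x)
    have hB : B.card ≤ (q + 1) ^ r := by
      refine le_trans (le_of_eq ?_) ih
      rw [← Set.ncard_coe_finset]
      congr 1
      ext x
      simp [B]
    have hN : ∀ y, (N y).card ≤ q := by
      intro y
      refine le_trans (le_of_eq ?_) (hq y)
      rw [← Set.ncard_coe_finset]
      congr 1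
      ext x
      simp [N]
    have h1 : {x | L.dist v x ≤ r + 1} ⊆ ((B ∪ B.biUnion N : Finset V) : Set V) := by
      intro x hx
      rw [Set.mem_ofPred_eq] at hx
      rw [Finset.mem_coe, Finset.mem_union, Finset.mem_biUnion]
      rcases Nat.lt_or_ge r (L.dist v x) with h | h
      · right
        obtain ⟨y, hy, hy2⟩ := step hL v x (by omega)
        exact ⟨y, by simp only [B, Finset.mem_filter, Finset.mem_univ, true_and]; omega,
          by simp only [N, Finset.mem_filter, Finset.mem_univ, true_and]; exact hy⟩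
      · left
        simp only [B, Finset.mem_filter, Finset.mem_univ, true_and]
        exact h
    calc {x | L.dist v x ≤ r + 1}.ncard ≤ ((B ∪ B.biUnion N : Finset V) : Set V).ncard :=
          Set.ncard_le_ncard h1 (Set.toFinite _)
      _ = (B ∪ B.biUnion N).card := Set.ncard_coe_finset _
      _ ≤ B.card + (B.biUnion N).card := Finset.card_union_le _ _
      _ ≤ B.card + B.card * q := by
          have := Finset.card_biUnion_le_card_mul B N q (fun y _ => hN y)
          omega
      _ = B.card * (q + 1) := by ring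
      _ ≤ (q + 1) ^ r * (q + 1) := Nat.mul_le_mul_right _ hB
      _ = (q + 1) ^ (r + 1) := by ring

/-- **DEG.** -/
theorem deg : DegStmt.{u} := by
  classical
  intro V _ L hconn hmin q hcard
  have hL : L.Connected :=
    (SimpleGraph.induceUnivIso L).connected_iff.1 ((conn_iff L Set.univ).2 hconn)
  by_cases hbig : ∃ v, q ≤ (L.neighborSet v).ncard
  · obtain ⟨v, hv⟩ := hbig
    have hne : Nonempty (Fin q ↪ L.neighborSet v) := by
      have _ : Fintype (L.neighborSet v) := Fintype.ofFinite _
      refine Function.Embedding.nonempty_of_card_le ?_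
      rw [Fintype.card_fin, ← Nat.card_eq_fintype_card]
      exact hv
    obtain ⟨e⟩ := hne
    refine ⟨{v}, fun i => (e i : V), conn_singleton L v, ?_, ?_, ?_⟩
    · intro i j hij
      exact e.injective (Subtype.ext hij)
    · intro i hi
      have h1 : L.Adj v (e i) := (e i).2
      have h2 : ((e i : L.neighborSet v) : V) = v := hi
      rw [h2] at h1
      exact L.loopless.irrefl _ h1
    · intro i
      exact ⟨v, rfl, (e i).2⟩
  · have hsm : ∀ v, (L.neighborSet v).ncard < q := by
      intro v
      by_contra h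
      exact hbig ⟨v, not_lt.1 h⟩
    obtain ⟨v, -⟩ := hconn.1
    have hex : ∃ x, 3 * q ≤ L.dist v x := by
      by_contra hcon
      have h1 : ∀ x, L.dist v x ≤ 3 * q := by
        intro x
        by_contra h
        exact hcon ⟨x, by omega⟩
      have h2 := ball hL q (fun v => (hsm v).le) v (3 * q)
      have h3 : {x | L.dist v x ≤ 3 * q} = Set.univ := by
        ext x
        simp [h1 x]
      rw [h3, Set.ncard_univ] at h2
      have h4 : (q + 1) ^ (3 * q) ≤ (q + 3) ^ (3 * q) := Nat.pow_le_pow_left (by omega) _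
      have h5 : (q + 3) ^ (3 * q) < (q + 3) ^ (4 * q + 6) :=
        Nat.pow_lt_pow_right (by omega) (by omega)
      omega
    obtain ⟨x, hx⟩ := hex
    obtain ⟨f, -, hf2, hf3⟩ := path hL v _ x rfl
    have hB : ∀ j : Fin q, ∃ b, b ∉ {y | ∃ i, i ≤ 3 * q ∧ f i = y} ∧
        L.Adj (f (3 * (j : ℕ) + 2)) b ∧ 3 * (j : ℕ) + 1 ≤ L.dist v b ∧
        L.dist v b ≤ 3 * (j : ℕ) + 3 := by
      intro j
      have hj := j.2
      have h1 : ¬ (L.neighborSet (f (3 * (j : ℕ) + 2)) ⊆
          {f (3 * (j : ℕ) + 1), f (3 * (j : ℕ) + 3)}) := by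
        intro hcon
        have h2 := Set.ncard_le_ncard hcon (Set.toFinite _)
        have h3 : ({f (3 * (j : ℕ) + 1), f (3 * (j : ℕ) + 3)} : Set V).ncard ≤ 2 := by
          refine (Set.ncard_insert_le _ _).trans ?_
          rw [Set.ncard_singleton]
        have h4 := hmin (f (3 * (j : ℕ) + 2))
        omega
      rw [Set.not_subset] at h1
      obtain ⟨b, hb1, hb2⟩ := h1
      rw [SimpleGraph.mem_neighborSet] at hb1
      have h5 := adj_dist hL v _ _ hb1
      have h6 := adj_dist hL v _ _ hb1.symm
      rw [hf2 _ (by omega)] at h5 h6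
      refine ⟨b, ?_, hb1, by omega, by omega⟩
      rintro ⟨i, hi, rfl⟩
      rw [hf2 i (by omega)] at h5 h6
      have h7 : i = 3 * (j : ℕ) + 1 ∨ i = 3 * (j : ℕ) + 2 ∨ i = 3 * (j : ℕ) + 3 := by omega
      rcases h7 with rfl | rfl | rfl
      · exact hb2 (Or.inl rfl)
      · exact L.loopless.irrefl _ hb1
      · exact hb2 (Or.inr rfl)
    choose B hB1 hB2 hB3 hB4 using hB
    refine ⟨{y | ∃ i, i ≤ 3 * q ∧ f i = y}, B, ?_, ?_, hB1, ?_⟩
    · refine conn_of_root (r := f 0) ⟨0, Nat.zero_le _, rfl⟩ ?_
      rintro y ⟨i, hi, rfl⟩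
      induction i with
      | zero => exact Relation.ReflTransGen.refl
      | succ i ih =>
        refine (ih (by omega)).tail ⟨hf3 i (by omega), i + 1, hi, rfl⟩
    · intro i j hij
      have a1 := hB3 i
      have a2 := hB4 i
      have a3 := hB3 j
      have a4 := hB4 j
      rw [hij] at a1 a2
      apply Fin.ext
      omega
    · intro i
      have hi := i.2
      exact ⟨f (3 * (i : ℕ) + 2), ⟨3 * (i : ℕ) + 2, by omega, rfl⟩, hB2 i⟩

end Pool.Agent.Helper50.NW
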